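import Pool.Agent.L7h1.AS.Stm

/-!
# Project AS, parts GSQ and QLB
-/

set_option autoImplicit false

namespace Pool.Agent.L7h66.AS

open Finset Pool.Agent.L7h1.AS

lemma g_nonneg (P m : ℕ) : 0 ≤ g P m := by
  unfold g
  split_ifs <;> norm_num

lemma g_add (P k m : ℕ) : g P (P * k + m) = g P m := by
  unfold g
  have : (P * k + m).Coprime P ↔ m.Coprime P := by
    simp [Nat.Coprime]
  simp only [this]

lemma g_mul (P m n : ℕ) : g P m * g P n = if m.Coprime P ∧ n.Coprime P then 1 else 0 := by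
  unfold g
  by_cases h1 : m.Coprime P
  · by_cases h2 : n.Coprime P
    · rw [if_pos h1, if_pos h2, if_pos ⟨h1, h2⟩, one_mul]
    · have h3 : ¬ (m.Coprime P ∧ n.Coprime P) := fun h => h2 h.2
      rw [if_neg h2, if_neg h3, mul_zero]
  · have h3 : ¬ (m.Coprime P ∧ n.Coprime P) := fun h => h1 h.1
    rw [if_neg h1, if_neg h3, zero_mul]

lemma R_eq (P a b : ℕ) : (R P a b : ℝ) = ∑ r ∈ range P, g P (r + a) * g P (r + b) := by
  unfold R
  simp only [g_mul]
  rw [Finset.sum_boole]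

lemma sum_per (h : ℕ → ℝ) (P : ℕ) (hp : ∀ k m, h (P * k + m) = h m) (k : ℕ) :
    ∑ n ∈ range (P * k), h n = k * ∑ n ∈ range P, h n := by
  induction k with
  | zero => simp
  | succ k ih =>
    rw [Nat.mul_succ, Finset.sum_range_add, ih, Finset.sum_congr rfl fun x _ => hp k x]
    push_cast
    ring

lemma sum_le (P N a b : ℕ) (hP : 1 ≤ P) :
    ∑ n ∈ Icc 1 N, g P (n + a) * g P (n + b) ≤ ((N : ℝ) / P + 1) * R P a b := by
  have h1 : Icc 1 N ⊆ range (P * (N / P + 1)) := by
    intro n hn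
    rw [Finset.mem_Icc] at hn
    rw [Finset.mem_range]
    exact lt_of_le_of_lt hn.2 (Nat.lt_mul_div_succ N hP)
  have h2 : ∑ n ∈ Icc 1 N, g P (n + a) * g P (n + b) ≤
      ∑ n ∈ range (P * (N / P + 1)), g P (n + a) * g P (n + b) :=
    Finset.sum_le_sum_of_subset_of_nonneg h1 fun _ _ _ =>
      mul_nonneg (g_nonneg _ _) (g_nonneg _ _)
  refine h2.trans ?_
  rw [sum_per (fun n => g P (n + a) * g P (n + b)) P (fun k m => by
    simp only [add_assoc, g_add]) (N / P + 1), ← R_eq]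
  refine mul_le_mul_of_nonneg_right ?_ (Nat.cast_nonneg _)
  push_cast
  have := Nat.cast_div_le (α := ℝ) (m := N) (n := P)
  linarith

lemma sq_expand (s : Finset ℕ) (c f : ℕ → ℝ) :
    (∑ a ∈ s, c a * f a) ^ 2 = ∑ a ∈ s, ∑ b ∈ s, c a * c b * (f a * f b) := by
  rw [sq, Finset.sum_mul_sum]
  exact Finset.sum_congr rfl fun a _ => Finset.sum_congr rfl fun b _ => by ring

theorem s_GSQ : S_GSQ := by
  intro P H N c hP hc
  have h1 : ∑ n ∈ Icc 1 N, G P H c n ^ 2 = ∑ a ∈ Icc 1 H, ∑ b ∈ Icc 1 H, c a * c b *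
      ∑ n ∈ Icc 1 N, g P (n + a) * g P (n + b) := by
    unfold G
    simp only [sq_expand, Finset.mul_sum]
    rw [Finset.sum_comm]
    exact Finset.sum_congr rfl fun a _ => Finset.sum_comm
  rw [h1]
  unfold Q
  rw [Finset.mul_sum]
  refine Finset.sum_le_sum fun a _ => ?_
  rw [Finset.mul_sum]
  refine Finset.sum_le_sum fun b _ => ?_
  have h2 := mul_le_mul_of_nonneg_left (sum_le P N a b hP) (mul_nonneg (hc a) (hc b))
  linarith

lemma sum_g (P a : ℕ) : ∑ r ∈ range P, g P (r + a) = Nat.totient P := by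
  have h := Nat.filter_coprime_Ico_eq_totient P a
  rw [← h]
  unfold g
  rw [Finset.sum_boole]
  congr 1
  rw [Finset.card_filter, Finset.card_filter, Finset.sum_Ico_eq_sum_range, Nat.add_sub_cancel_left]
  refine Finset.sum_congr rfl fun r _ => ?_
  have : (r + a).Coprime P ↔ P.Coprime (a + r) := by
    rw [Nat.coprime_comm, add_comm]
  simp only [this]

theorem s_QLB : S_QLB := by
  intro P H c _ _
  have h1 : Q P H c = ∑ r ∈ range P, (∑ a ∈ Icc 1 H, c a * g P (r + a)) ^ 2 := by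
    unfold Q
    simp only [sq_expand]
    rw [Finset.sum_comm (s := range P)]
    refine Finset.sum_congr rfl fun a _ => ?_
    rw [Finset.sum_comm (s := range P)]
    refine Finset.sum_congr rfl fun b _ => ?_
    rw [R_eq, Finset.mul_sum]
  have h2 : ∑ r ∈ range P, ∑ a ∈ Icc 1 H, c a * g P (r + a) =
      Nat.totient P * ∑ a ∈ Icc 1 H, c a := by
    rw [Finset.sum_comm, Finset.mul_sum]
    refine Finset.sum_congr rfl fun a _ => ?_
    rw [← Finset.mul_sum, sum_g]
    ring
  have h3 := sq_sum_le_card_mul_sum_sq (s := range P)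
    (f := fun r => ∑ a ∈ Icc 1 H, c a * g P (r + a))
  rw [h2, ← h1, Finset.card_range] at h3
  rw [← mul_pow]
  exact h3

end Pool.Agent.L7h66.AS
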